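import Pool.Agent.Y228.RR.Top

set_option autoImplicit false
set_option linter.unusedSectionVars false
set_option linter.unusedVariables false

/-! # Products of powers of ideals and of forms over ideals with Rees divisors: the roots which belong
to the denominators of the motivic zeta functions -/

namespace Pool.Agent.Y228.RR

open MvPowerSeries Pool.Agent.W574.SM Pool.Agent.W574.LM Pool.Agent.W574.HS Pool.Agent.TH192.DT
  Pool.Agent.H628R4.TP Pool.Agent.TH187.SA Pool.Agent.Y231.RF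

variable {σ T : Type} [Fintype σ] [DecidableEq σ] [Fintype T] [DecidableEq T] {κ : T → Type}
  [∀ t, Fintype (κ t)] [∀ t, DecidableEq (κ t)]

theorem mot_local {I : Type} [Fintype I] (g : (t : T) → κ t → MvPolynomial σ ℂ)
    (hg : ∀ t, ∃ j, g t j ≠ 0) (a : T → ℕ) (k : I → ℕ) (m : I → T → ℕ)
    (hE : ∀ i, 0 < ∑ t, a t * m i t →
      ∀ H : MvPolynomial σ ℂ, MvPolynomial.constantCoeff H ≠ 0 →
        FromRees g a H (k i + 1) (∑ t, a t * m i t))
    (q : ℤ × ℤ) (hq : q ∈ pairs (nuR k T) (mulR a m)) (b : Polynomial ℂ)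
    (hb : IsLocalBFunction (powProd a g) b) : b.eval ((q.1 : ℂ) / q.2) = 0 := by
  rcases pairs_cases a k m q hq with ⟨i, hi, rfl⟩ | ⟨t, ht, rfl⟩
  · have ha : ∃ t, a t ≠ 0 := by
      obtain ⟨t, _, ht⟩ := Finset.exists_ne_zero_of_sum_ne_zero hi.ne'
      exact ⟨t, left_ne_zero_of_mul ht⟩
    obtain ⟨H, hH, hHb⟩ := (powData_local a g hg b hb).ideal ha
    have h := root_of_from a g b H hHb _ _ hi (hE i hi H hH)
    push_cast at h ⊢
    exact h
  · have h := (powData_local a g hg b hb).strict t 0 ht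
    rw [Nat.cast_zero, add_zero] at h
    push_cast
    exact h

theorem mot_global {I : Type} [Fintype I] (g : (t : T) → κ t → MvPolynomial σ ℂ)
    (hg : ∀ t, ∃ j, g t j ≠ 0) (a : T → ℕ) (k : I → ℕ) (m : I → T → ℕ)
    (hE : ∀ i, 0 < ∑ t, a t * m i t → FromRees g a 1 (k i + 1) (∑ t, a t * m i t))
    (q : ℤ × ℤ) (hq : q ∈ pairs (nuR k T) (mulR a m)) (b : Polynomial ℂ)
    (hb : IsBFunction (powProd a g) b) : b.eval ((q.1 : ℂ) / q.2) = 0 := by
  rcases pairs_cases a k m q hq with ⟨i, hi, rfl⟩ | ⟨t, ht, rfl⟩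
  · have ha : ∃ t, a t ≠ 0 := by
      obtain ⟨t, _, ht⟩ := Finset.exists_ne_zero_of_sum_ne_zero hi.ne'
      exact ⟨t, left_ne_zero_of_mul ht⟩
    obtain ⟨H, hH, hHb⟩ := locEq_global a g b hb ha
    have h := root_of_from a g b H hHb _ _ hi ((hE i hi).congr hH)
    push_cast at h ⊢
    exact h
  · have h := (powData_global a g hg b hb).strict t 0 ht
    rw [Nat.cast_zero, add_zero] at h
    push_cast
    exact h

/-- ideals, locally at the origin -/
theorem id_local {I : Type} [Fintype I] (g : (t : T) → κ t → MvPolynomial σ ℂ) (a : T → ℕ)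
    (k : I → ℕ) (m : I → T → ℕ)
    (hE : ∀ i, 0 < ∑ t, a t * m i t →
      ∀ H : MvPolynomial σ ℂ, MvPolynomial.constantCoeff H ≠ 0 →
        FromRees g a H (k i + 1) (∑ t, a t * m i t))
    (q : ℤ × ℤ) (hq : q ∈ pairs (fun i => k i + 1) (fun i => ∑ t, a t * m i t))
    (b : Polynomial ℂ) (H : MvPolynomial σ ℂ) (hH : MvPolynomial.constantCoeff H ≠ 0)
    (hb : IsLocEq H (prodFam fun q : Σ t, Fin (a t) => g q.1) b) :
    b.eval ((q.1 : ℂ) / q.2) = 0 := by
  obtain ⟨i, hi, rfl⟩ := Finset.mem_image.1 hq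
  have hi' := (Finset.mem_filter.1 hi).2
  have h := root_of_from a g b H hb _ _ hi' (hE i hi' H hH)
  push_cast at h ⊢
  exact h

/-- the signs -/
theorem id_sign {I T : Type} [Fintype I] [Fintype T] (a : T → ℕ) (k : I → ℕ) (m : I → T → ℕ)
    (q : ℤ × ℤ) (hq : q ∈ pairs (fun i => k i + 1) (fun i => ∑ t, a t * m i t)) :
    q.1 < 0 ∧ 0 < q.2 :=
  pairs_sign _ _ (fun _ => Nat.succ_pos _) q hq

end Pool.Agent.Y228.RR
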