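import Pool.Agent.Y231.RF.Tup
import Pool.Agent.TH192.DT.Poles

set_option autoImplicit false
set_option linter.unusedSectionVars false
set_option linter.unusedVariables false

/-! # Products of powers of forms over ideals with Rees divisors: numbers which come from Rees
divisors, and topological zeta functions -/

namespace Pool.Agent.Y228.RR

open MvPowerSeries Pool.Agent.W574.SM Pool.Agent.W574.LM Pool.Agent.W574.HS Pool.Agent.TH192.DT
  Pool.Agent.H628R4.TP Pool.Agent.TH187.SA Pool.Agent.Y231.RF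

variable {σ T : Type} [Fintype σ] [DecidableEq σ] [Fintype T] [DecidableEq T] {κ : T → Type}
  [∀ t, Fintype (κ t)] [∀ t, DecidableEq (κ t)]

/-- The number `-ν / N` comes from a Rees divisor `E` of the product of the ideals `I_t` with
`a t ≠ 0`, at a general point of `E` over a point at which `H` does not vanish: `ν / N` is equal to
`(k_E + 1 + l) / N_E`, where `k_E` is the multiplicity of `E` in the relative canonical divisor, `N_E`
is the order of `∏ t, I_t ^ a t` along `E`, and `l < N_E` is the order along `E` of a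
polynomial `p`. For `p = 1` and `l = 0` this is `ν / N = (k_E + 1) / N_E`. -/
def FromRees (g : (t : T) → κ t → MvPolynomial σ ℂ) (a : T → ℕ) (H : MvPolynomial σ ℂ)
    (ν N : ℕ) : Prop :=
  ∃ E : Chart g, (E.IsRees fun t => a t ≠ 0) ∧ constantCoeff (MvPolynomial.aeval E.ξ H) ≠ 0 ∧
    ∃ (l : ℕ) (p : MvPolynomial σ ℂ), l < E.mul a ∧
      (∃ U : MvPowerSeries σ ℂ, constantCoeff U ≠ 0 ∧
        MvPolynomial.aeval E.ξ p = X E.z ^ l * U) ∧
      ν * E.mul a = (E.k + 1 + l) * N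

/-- the number of a Rees divisor itself -/
theorem fromRees_self {g : (t : T) → κ t → MvPolynomial σ ℂ} {a : T → ℕ} {H : MvPolynomial σ ℂ}
    (E : Chart g) (hE : E.IsRees fun t => a t ≠ 0)
    (hH : constantCoeff (MvPolynomial.aeval E.ξ H) ≠ 0) (hpos : 0 < E.mul a) :
    FromRees g a H (E.k + 1) (E.mul a) :=
  ⟨E, hE, hH, 0, 1, hpos, ⟨1, by rw [map_one]; exact one_ne_zero,
    by rw [map_one, pow_zero, one_mul]⟩, by ring⟩

theorem root_of_from (a : T → ℕ) (g : (t : T) → κ t → MvPolynomial σ ℂ) (b : Polynomial ℂ)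
    (H : MvPolynomial σ ℂ) (hb : IsLocEq H (prodFam fun q : Σ t, Fin (a t) => g q.1) b)
    (ν N : ℕ) (hN : 0 < N) (h : FromRees g a H ν N) : b.eval (-(ν : ℂ) / N) = 0 := by
  obtain ⟨E, hE, hH, l, p, hl, hp, he⟩ := h
  have h1 := rees_prod a g b H hb E hE hH l hl p hp
  have h2 : (-(ν : ℂ) / N) = -((E.k : ℂ) + 1 + l) / (E.mul a : ℕ) := by
    have hN0 : (N : ℂ) ≠ 0 := Nat.cast_ne_zero.2 hN.ne'
    have hE0 : ((E.mul a : ℕ) : ℂ) ≠ 0 := Nat.cast_ne_zero.2 (by omega)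
    have he' : (ν : ℂ) * (E.mul a : ℕ) = (E.k + 1 + l) * N := by exact_mod_cast he
    rw [div_eq_div_iff hN0 hE0]
    linear_combination -he'
  rw [h2]
  exact h1

/-- the functional equation of the product of ideals, global -/
theorem locEq_global (a : T → ℕ) (g : (t : T) → κ t → MvPolynomial σ ℂ) (b : Polynomial ℂ)
    (hb : IsBFunction (powProd a g) b) (ha : ∃ t, a t ≠ 0) :
    ∃ H : MvPolynomial σ ℂ, (∀ ξ : σ → MvPowerSeries σ ℂ,
      constantCoeff (MvPolynomial.aeval ξ H) ≠ 0) ∧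
      IsLocEq H (prodFam fun q : Σ t, Fin (a t) => g q.1) b := by
  obtain ⟨t0, ht0⟩ := ha
  obtain ⟨P, hP⟩ := hb
  have h1 := locEq_of_powProd a g t0 ht0 b 1 P (fun s => by rw [one_mul]; exact hP s)
  refine ⟨_, fun ξ => ?_, h1⟩
  have h2 : hat (1 : MvPolynomial ((Σ t, κ t) ⊕ σ) ℂ) 0 = 1 := by
    rw [hat_one, if_pos rfl]
  rw [h2, map_one, map_one]
  exact one_ne_zero

theorem FromRees.congr {g : (t : T) → κ t → MvPolynomial σ ℂ} {a : T → ℕ}
    {H H' : MvPolynomial σ ℂ} {ν N : ℕ} (h : FromRees g a H ν N)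
    (hH : ∀ ξ : σ → MvPowerSeries σ ℂ, constantCoeff (MvPolynomial.aeval ξ H') ≠ 0) :
    FromRees g a H' ν N := by
  obtain ⟨E, hE, _, h⟩ := h
  exact ⟨E, hE, hH _, h⟩

/-- The poles of the topological zeta function come from the strata which occur. -/
theorem pole_topZ' {ι : Type} [Fintype ι] (ν N : ι → ℕ) (χ : Finset ι → ℤ) (hν : ∀ i, 0 < ν i)
    (s : ℂ) (h : (topZ ν N χ).denom.eval s = 0) :
    ∃ J, χ J ≠ 0 ∧ ∃ i ∈ J, 0 < N i ∧ s = -(ν i : ℂ) / N i := by
  by_contra hcon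
  push Not at hcon
  refine reg_denom (reg_sum s _ _ fun I _ => ?_) h
  by_cases hχ : χ I = 0
  · rw [hχ, Int.cast_zero, map_zero, zero_mul]
    have := reg_C s 0
    rwa [map_zero] at this
  refine reg_mul (reg_C s _) (reg_prod s _ _ fun i hi => reg_lin s (N i) (ν i) ?_)
  intro h0
  rcases Nat.eq_zero_or_pos (N i) with hN | hN
  · rw [hN] at h0
    have : (ν i : ℂ) ≠ 0 := by exact_mod_cast (hν i).ne'
    apply this
    simpa using h0
  · apply hcon I hχ i hi hN
    have hN' : (N i : ℂ) ≠ 0 := by exact_mod_cast hN.ne'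
    field_simp
    linear_combination h0

/-- **Global topological zeta functions.** -/
theorem top_global {I : Type} [Fintype I] (g : (t : T) → κ t → MvPolynomial σ ℂ)
    (hg : ∀ t, ∃ j, g t j ≠ 0) (a : T → ℕ) (k : I → ℕ) (m : I → T → ℕ)
    (χ : Finset (I ⊕ T) → ℤ)
    (hE : ∀ i, 0 < ∑ t, a t * m i t → (∃ J, χ J ≠ 0 ∧ Sum.inl i ∈ J) →
      FromRees g a 1 (k i + 1) (∑ t, a t * m i t))
    (s₀ : ℂ) (hs : (topZ (nuR k T) (mulR a m) χ).denom.eval s₀ = 0)
    (b : Polynomial ℂ) (hb : IsBFunction (powProd a g) b) : b.eval s₀ = 0 := by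
  obtain ⟨J, hJ, x, hx, hN, rfl⟩ := pole_topZ' _ _ χ (nuR_pos k) s₀ hs
  rcases x with i | t
  · have hpos : 0 < ∑ t, a t * m i t := hN
    have ha : ∃ t, a t ≠ 0 := by
      obtain ⟨t, _, ht⟩ := Finset.exists_ne_zero_of_sum_ne_zero hpos.ne'
      exact ⟨t, left_ne_zero_of_mul ht⟩
    obtain ⟨H, hH, hHb⟩ := locEq_global a g b hb ha
    have h := root_of_from a g b H hHb _ _ hpos ((hE i hpos ⟨J, hJ, hx⟩).congr hH)
    exact h
  · have ht : 0 < a t := hN
    have h := (powData_global a g hg b hb).strict t 0 ht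
    rw [Nat.cast_zero, add_zero] at h
    change b.eval (-((1 : ℕ) : ℂ) / a t) = 0
    rw [Nat.cast_one]
    exact h

/-- **Local topological zeta functions.** -/
theorem top_local {I : Type} [Fintype I] (g : (t : T) → κ t → MvPolynomial σ ℂ)
    (hg : ∀ t, ∃ j, g t j ≠ 0) (a : T → ℕ) (k : I → ℕ) (m : I → T → ℕ)
    (χ : Finset (I ⊕ T) → ℤ)
    (hE : ∀ i, 0 < ∑ t, a t * m i t → (∃ J, χ J ≠ 0 ∧ Sum.inl i ∈ J) →
      ∀ H : MvPolynomial σ ℂ, MvPolynomial.constantCoeff H ≠ 0 →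
        FromRees g a H (k i + 1) (∑ t, a t * m i t))
    (s₀ : ℂ) (hs : (topZ (nuR k T) (mulR a m) χ).denom.eval s₀ = 0)
    (b : Polynomial ℂ) (hb : IsLocalBFunction (powProd a g) b) : b.eval s₀ = 0 := by
  obtain ⟨J, hJ, x, hx, hN, rfl⟩ := pole_topZ' _ _ χ (nuR_pos k) s₀ hs
  rcases x with i | t
  · have hpos : 0 < ∑ t, a t * m i t := hN
    have ha : ∃ t, a t ≠ 0 := by
      obtain ⟨t, _, ht⟩ := Finset.exists_ne_zero_of_sum_ne_zero hpos.ne'
      exact ⟨t, left_ne_zero_of_mul ht⟩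
    obtain ⟨H, hH, hHb⟩ := (powData_local a g hg b hb).ideal ha
    exact root_of_from a g b H hHb _ _ hpos (hE i hpos ⟨J, hJ, hx⟩ H hH)
  · have ht : 0 < a t := hN
    have h := (powData_local a g hg b hb).strict t 0 ht
    rw [Nat.cast_zero, add_zero] at h
    change b.eval (-((1 : ℕ) : ℂ) / a t) = 0
    rw [Nat.cast_one]
    exact h

/-- **Twisted topological zeta functions.** Only the divisors whose multiplicity is divisible by `e`
matter. -/
theorem tw_global {I : Type} [Fintype I] (g : (t : T) → κ t → MvPolynomial σ ℂ)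
    (hg : ∀ t, ∃ j, g t j ≠ 0) (a : T → ℕ) (k : I → ℕ) (m : I → T → ℕ)
    (χ : Finset (I ⊕ T) → ℤ) (e : ℕ)
    (hE : ∀ i, 0 < ∑ t, a t * m i t → e ∣ ∑ t, a t * m i t →
      (∃ J, χ J ≠ 0 ∧ Sum.inl i ∈ J) → FromRees g a 1 (k i + 1) (∑ t, a t * m i t))
    (s₀ : ℂ) (hs : (twZ e (nuR k T) (mulR a m) χ).denom.eval s₀ = 0)
    (b : Polynomial ℂ) (hb : IsBFunction (powProd a g) b) : b.eval s₀ = 0 := by
  classical
  have h1 : twZ e (nuR k T) (mulR a m) χ = topZ (nuR k T) (mulR a m)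
      (fun I => if I.Nonempty ∧ ∀ i ∈ I, e ∣ mulR a m i then χ I else 0) := by
    rw [twZ, topZ, Finset.sum_filter]
    refine Finset.sum_congr rfl fun I _ => ?_
    split_ifs
    · rfl
    · simp
  rw [h1] at hs
  refine top_global g hg a k m _ (fun i hi hJ => ?_) s₀ hs b hb
  obtain ⟨J, hJ, hiJ⟩ := hJ
  by_cases hc : J.Nonempty ∧ ∀ i ∈ J, e ∣ mulR a m i
  · rw [if_pos hc] at hJ
    exact hE i hi (hc.2 _ hiJ) ⟨J, hJ, hiJ⟩
  · rw [if_neg hc] at hJ
    exact absurd rfl hJ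

end Pool.Agent.Y228.RR
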